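import Pool.Agent.Y403.BT.Dual

/-!
# Borel strong theons for theories of graphs given by matching clauses

A clause says: for all distinct `x_0, …, x_{n-1}`, if all the atoms `E(x_i, x_j)` with `hyp i j`
hold, then one of the atoms `E(x_a, x_b)` of a matching `con` of pairs of variables holds. For every
set `T` of clauses, every weak (in particular every strong) theon `N` of the theory of graphs
axiomatised by `T` differs by a null set from a Borel strong theon `N'` of this theory. The same
holds for the dual theories, whose axioms say: if all the atoms of a matching hold then one of the
atoms `E(x_i, x_j)` with `hyp i j` holds.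

The clauses with `m ≤ 1` conclusions are the Horn clauses. The theory `T_{C_4}` of the graphs without
induced 4-cycle is given by a clause with `m = 2`. The graphs without induced `H`, where the
complement of `H` is a matching, are given by the clause whose hypotheses are the edges of `H` and
whose conclusions are the non-edges.

Idea. `N'` is the set of points `x` of `𝓔_2` such that the relative density of the complement of
`N` in the boxes around `x` tends to `0` when the levels of the two vertices tend to infinity
independently of each other. If a clause fails somewhere for `N'`, then boxes witnessing the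
non-edges of the matching can be chosen independently of one another, and the hypotheses hold with
high probability in these boxes; so the clause fails for `N` on a set of positive measure.
-/

set_option autoImplicit false

open MeasureTheory Set

namespace Pool.Agent.Results.MP_351e8f_co.MatchingClauses

open Pool.Agent.TH751.Theon Pool.Agent.Y403.BT

theorem result :
    -- the theories axiomatised by clauses whose conclusions form a matching
    (∀ T : Set Clause,
      (∀ N : Set (EV (Fin 2)), StrongOn T N → WeakOn T N) ∧
      ∀ N : Set (EV (Fin 2)), NullMeasurableSet N volume → WeakOn T N →
        ∃ N' : Set (EV (Fin 2)), MeasurableSet[borel (EV (Fin 2))] N' ∧ StrongOn T N' ∧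
          volume (symmDiff N N') = 0) ∧
    -- the theories axiomatised by clauses whose hypotheses form a matching
    (∀ T : Set Clause,
      (∀ N : Set (EV (Fin 2)), DualStrongOn T N → DualWeakOn T N) ∧
      ∀ N : Set (EV (Fin 2)), NullMeasurableSet N volume → DualWeakOn T N →
        ∃ N' : Set (EV (Fin 2)), MeasurableSet[borel (EV (Fin 2))] N' ∧ DualStrongOn T N' ∧
          volume (symmDiff N N') = 0) ∧
    -- the theory of the graphs without induced 4-cycle is one of them
    ∀ (V : Type) (M : V → V → Prop), Model {c4} M ↔ ModelC4 M := by
  have hb : (MeasurableSpace.pi : MeasurableSpace (EV (Fin 2))) = borel (EV (Fin 2)) :=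
    BorelSpace.measurable_eq
  refine ⟨fun T => ⟨fun N h => weak_of_strong h, fun N hN h => ?_⟩,
    fun T => ⟨fun N h => ?_, fun N hN h => ?_⟩, fun V M => c4_iff M⟩
  · obtain ⟨N', h1, h2, h3⟩ := exists_borel hN h
    refine ⟨N', ?_, h2, h3⟩
    rw [← hb]
    exact h1
  · exact dualWeak_iff.2 (weak_of_strong (dualStrong_iff.1 h))
  · obtain ⟨N', h1, h2, h3⟩ := exists_borel_dual hN h
    refine ⟨N', ?_, h2, h3⟩
    rw [← hb]
    exact h1

end Pool.Agent.Results.MP_351e8f_co.MatchingClauses
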